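import Pool.Agent.T2h10.RG.Ind

/-!
# The index inequality for the complete bipartite graph

Owner helper10.
-/

set_option autoImplicit false

namespace Pool.Agent.T2h10.RG

open SimpleGraph
open scoped Classical

theorem sum_parts {r g : ℕ} (X : Finset (Fin r ⊕ Fin g)) (f : Fin r ⊕ Fin g → ℝ) :
    ∑ v ∈ X, f v = (∑ i ∈ Finset.univ.filter (fun i => Sum.inl i ∈ X), f (Sum.inl i)) +
      ∑ j ∈ Finset.univ.filter (fun j => Sum.inr j ∈ X), f (Sum.inr j) := by
  rw [Finset.sum_filter, Finset.sum_filter, ← Fintype.sum_sum_type (fun v => if v ∈ X then f v else 0),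
    Finset.sum_ite_mem, Finset.univ_inter]

theorem count {r g : ℕ} (hg : 2 ≤ g) (hrg : g < r) (X : Finset (Fin r ⊕ Fin g))
    (h : (∑ v ∈ X, ∑ w ∈ X, if (completeBipartiteGraph (Fin r) (Fin g)).Adj v w then (1 : ℝ) else 0) +
      2 * (∑ w ∈ Xᶜ, if ∃ v ∈ X, (completeBipartiteGraph (Fin r) (Fin g)).Adj v w then (1 : ℝ) else 0) <
      2 * X.card) :
    (∀ j, Sum.inr j ∉ X) ∧ g < (Finset.univ.filter (fun i : Fin r => Sum.inl i ∈ X)).card := by
  obtain ⟨A, hA⟩ : ∃ A : Finset (Fin r), A = Finset.univ.filter (fun i => Sum.inl i ∈ X) := ⟨_, rfl⟩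
  obtain ⟨B, hB⟩ : ∃ B : Finset (Fin g), B = Finset.univ.filter (fun j => Sum.inr j ∈ X) := ⟨_, rfl⟩
  have hA' : ∀ i, i ∈ A ↔ Sum.inl i ∈ X := fun i => by simp [hA]
  have hB' : ∀ j, j ∈ B ↔ Sum.inr j ∈ X := fun j => by simp [hB]
  have hAc : (Finset.univ.filter (fun i : Fin r => Sum.inl i ∈ Xᶜ)) = Aᶜ := by
    ext i
    simp [hA]
  have hBc : (Finset.univ.filter (fun j : Fin g => Sum.inr j ∈ Xᶜ)) = Bᶜ := by
    ext i
    simp [hB]
  have e1 : (∑ v ∈ X, ∑ w ∈ X, if (completeBipartiteGraph (Fin r) (Fin g)).Adj v w then (1 : ℝ) else 0) =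
      2 * (A.card * B.card : ℝ) := by
    rw [sum_parts X]
    simp only [sum_parts X (fun w => if (completeBipartiteGraph (Fin r) (Fin g)).Adj _ w then (1 : ℝ) else 0)]
    rw [← hA, ← hB]
    simp only [completeBipartiteGraph_adj, Sum.isLeft_inl, Sum.isRight_inl, Sum.isLeft_inr,
      Sum.isRight_inr, Bool.false_eq_true, and_false, and_true, or_false, false_or,
      if_false, if_true, Finset.sum_const_zero, Finset.sum_const, nsmul_eq_mul, mul_one, add_zero, zero_add,
      or_self]
    ring
  have e2 : (∑ w ∈ Xᶜ, if ∃ v ∈ X, (completeBipartiteGraph (Fin r) (Fin g)).Adj v w then (1 : ℝ) else 0) =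
      (if B.Nonempty then ((r : ℝ) - A.card) else 0) + (if A.Nonempty then ((g : ℝ) - B.card) else 0) := by
    rw [sum_parts Xᶜ, hAc, hBc]
    have f1 : ∀ i : Fin r, (∃ v ∈ X, (completeBipartiteGraph (Fin r) (Fin g)).Adj v (Sum.inl i)) ↔
        B.Nonempty := by
      intro i
      constructor
      · rintro ⟨v | v, hv, h1⟩
        · simp [completeBipartiteGraph_adj] at h1
        · exact ⟨v, (hB' v).2 hv⟩
      · rintro ⟨j, hj⟩
        exact ⟨Sum.inr j, (hB' j).1 hj, by simp [completeBipartiteGraph_adj]⟩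
    have f2 : ∀ i : Fin g, (∃ v ∈ X, (completeBipartiteGraph (Fin r) (Fin g)).Adj v (Sum.inr i)) ↔
        A.Nonempty := by
      intro i
      constructor
      · rintro ⟨v | v, hv, h1⟩
        · exact ⟨v, (hA' v).2 hv⟩
        · simp [completeBipartiteGraph_adj] at h1
      · rintro ⟨j, hj⟩
        exact ⟨Sum.inl j, (hA' j).1 hj, by simp [completeBipartiteGraph_adj]⟩
    simp only [f1, f2, Finset.sum_const, nsmul_eq_mul]
    have g1 : ((Aᶜ.card : ℕ) : ℝ) = (r : ℝ) - A.card := by
      rw [Finset.card_compl, Fintype.card_fin, Nat.cast_sub]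
      simpa using Finset.card_le_univ A
    have g2 : ((Bᶜ.card : ℕ) : ℝ) = (g : ℝ) - B.card := by
      rw [Finset.card_compl, Fintype.card_fin, Nat.cast_sub]
      simpa using Finset.card_le_univ B
    rw [g1, g2]
    split_ifs <;> ring
  have e3 : (X.card : ℝ) = A.card + B.card := by
    have := sum_parts X (fun _ => (1 : ℝ))
    rw [← hA, ← hB] at this
    simpa using this
  rw [e1, e2, e3] at h
  have hAr : (A.card : ℝ) ≤ r := by
    have := Finset.card_le_univ A
    rw [Fintype.card_fin] at this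
    exact_mod_cast this
  have hBg : (B.card : ℝ) ≤ g := by
    have := Finset.card_le_univ B
    rw [Fintype.card_fin] at this
    exact_mod_cast this
  have hg' : (2 : ℝ) ≤ g := by exact_mod_cast hg
  have hrg' : (g : ℝ) + 1 ≤ r := by exact_mod_cast hrg
  have hBe : B = ∅ := by
    by_contra hne
    have hBn : B.Nonempty := Finset.nonempty_iff_ne_empty.2 hne
    rw [if_pos hBn] at h
    have hB1 : (1 : ℝ) ≤ B.card := by exact_mod_cast hBn.card_pos
    rcases A.eq_empty_or_nonempty with hAe | hAn
    · rw [hAe] at h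
      simp at h
      have h' : (r : ℝ) < B.card := by exact_mod_cast h
      linarith
    · rw [if_pos hAn] at h
      have hA1 : 1 ≤ A.card := hAn.card_pos
      rcases Nat.lt_or_ge A.card 2 with h1 | h1
      · have h2 : A.card = 1 := by omega
        rw [h2] at h
        push_cast at h
        linarith
      · have h1' : (2 : ℝ) ≤ A.card := by exact_mod_cast h1
        rcases Nat.lt_or_ge B.card 2 with h3 | h3
        · have h4 : B.card = 1 := by
            have := hBn.card_pos
            omega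
          rw [h4] at h
          push_cast at h
          linarith
        · have h3' : (2 : ℝ) ≤ B.card := by exact_mod_cast h3
          nlinarith
  refine ⟨fun j hj => ?_, ?_⟩
  · have := (hB' j).2 hj
    rw [hBe] at this
    exact absurd this (Finset.notMem_empty j)
  · rw [← hA]
    rw [hBe] at h
    rcases A.eq_empty_or_nonempty with hAe | hAn
    · rw [hAe] at h
      simp at h
    · rw [if_pos hAn, if_neg Finset.not_nonempty_empty] at h
      simp at h
      exact_mod_cast h

end Pool.Agent.T2h10.RG
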