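import Mathlib

/-!
# Lifts of Jacobi matrices to the universal cover of a graph

Owner helper10.
-/

set_option autoImplicit false

namespace Pool.Agent.T2h10.RG

open SimpleGraph

/-- The tree `T` with the map `π` is a universal cover of the graph `G`: `T` is a tree and `π` maps the neighbours of
every vertex `x` bijectively to the neighbours of `π x`. -/
structure IsUniversalCover {V W : Type} (T : SimpleGraph V) (G : SimpleGraph W) (π : V → W) : Prop where
  tree : T.IsTree
  cover : ∀ x, Set.BijOn π (T.neighborSet x) (G.neighborSet (π x))

/-- A Jacobi matrix on the graph `G`: a real number `b v` for each vertex and a positive number `a v w = a w v` for each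
edge. -/
structure Jacobi {W : Type} (G : SimpleGraph W) where
  b : W → ℝ
  a : W → W → ℝ
  symm : ∀ v w, a v w = a w v
  pos : ∀ v w, G.Adj v w → 0 < a v w

/-- The lift `H` of the Jacobi matrix to the cover. -/
noncomputable def lift {V W : Type} {G : SimpleGraph W} (J : Jacobi G) (T : SimpleGraph V) [T.LocallyFinite]
    (π : V → W) (u : V → ℂ) (x : V) : ℂ :=
  (J.b (π x) : ℂ) * u x + ∑ y ∈ T.neighborFinset x, (J.a (π x) (π y) : ℂ) * u y

/-- `u` is an eigenvector of the lift in the Hilbert space of the square summable functions on the cover, with the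
real eigenvalue `lam`. -/
structure IsEigenvector {V W : Type} {G : SimpleGraph W} (J : Jacobi G) (T : SimpleGraph V) [T.LocallyFinite]
    (π : V → W) (lam : ℝ) (u : V → ℂ) : Prop where
  summable : Summable fun x => ‖u x‖ ^ 2
  ne_zero : u ≠ 0
  eq : ∀ x, lift J T π u x = lam * u x

end Pool.Agent.T2h10.RG
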