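import Pool.Agent.T2h10.RG.Loc

/-!
# The index inequality for periodic Jacobi operators on trees

Owner helper10.
-/

set_option autoImplicit false

namespace Pool.Agent.T2h10.RG

open SimpleGraph
open scoped Classical

variable {V W : Type} {T : SimpleGraph V} [T.LocallyFinite] {G : SimpleGraph W} {π : V → W}
  {a : W → W → ℝ} {b : W → ℝ} {lam : ℝ} {P : V → V → ℝ}

theorem Eig.comp {K : V → V → ℝ} {β : V → ℝ} {u : V → ℝ} (hu : Eig T K β lam u) (σ : V ≃ V)
    (hσ : ∀ y z, T.Adj (σ y) (σ z) ↔ T.Adj y z) (hK : ∀ y z, K (σ y) (σ z) = K y z)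
    (hβ : ∀ y, β (σ y) = β y) : Eig T K β lam (fun y => u (σ y)) := by
  refine ⟨σ.summable_iff.2 hu.1, fun x => ?_⟩
  rw [← hu.2 (σ x), hβ]
  congr 1
  have h1 : T.neighborFinset (σ x) = (T.neighborFinset x).map σ.toEmbedding := by
    ext z
    rw [mem_neighborFinset, Finset.mem_map]
    constructor
    · intro hz
      refine ⟨σ.symm z, ?_, by simp⟩
      rw [mem_neighborFinset, ← hσ]
      simpa using hz
    · rintro ⟨y, hy, rfl⟩
      rw [mem_neighborFinset] at hy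
      exact (hσ _ _).2 hy
  rw [h1, Finset.sum_map]
  exact Finset.sum_congr rfl fun y _ => by rw [← hK x y]; rfl

theorem Kern.comp {K : V → V → ℝ} {β : V → ℝ} (hP : Kern T K β lam P) (σ : V ≃ V)
    (hσ : ∀ y z, T.Adj (σ y) (σ z) ↔ T.Adj y z) (hK : ∀ y z, K (σ y) (σ z) = K y z)
    (hβ : ∀ y, β (σ y) = β y) (x y : V) : P (σ x) (σ y) = P x y := by
  have h1 : Eig T K β lam (fun y => P (σ x) (σ y)) := (hP.eig (σ x)).comp σ hσ hK hβ
  have h2 : ∀ v, Eig T K β lam v → ∑' y, P (σ x) (σ y) * v y = v x := by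
    intro v hv
    have hv' : Eig T K β lam (fun y => v (σ.symm y)) := by
      refine hv.comp σ.symm (fun y z => ?_) (fun y z => ?_) (fun y => ?_)
      · rw [← hσ]
        simp
      · rw [← hK]
        simp
      · rw [← hβ]
        simp
    have h3 := hP.rep _ hv' (σ x)
    rw [σ.symm_apply_apply] at h3
    rw [← h3, ← σ.tsum_eq (fun y => P (σ x) y * v (σ.symm y))]
    refine tsum_congr fun z => ?_
    rw [σ.symm_apply_apply]
  have h3 := h1.sub (hP.eig x) 1
  have h4 := h2 _ h3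
  have h5 := hP.rep _ h3 x
  have s1 := summ_mul h1.1 h3.1
  have s2 := summ_mul (hP.eig x).1 h3.1
  have h6 : ∑' y, (P (σ x) (σ y) - 1 * P x y) ^ 2 = 0 := by
    rw [← sub_self (P (σ x) (σ x) - 1 * P x x)]
    nth_rewrite 1 [← h4]
    rw [← h5, ← s1.tsum_sub s2]
    refine tsum_congr fun y => ?_
    ring
  have h7 : HasSum (fun y => (P (σ x) (σ y) - 1 * P x y) ^ 2) 0 := by
    rw [← h6]
    exact h3.1.hasSum
  have h8 := congrFun ((hasSum_zero_iff_of_nonneg fun z => sq_nonneg _).1 h7) y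
  have h9 : P (σ x) (σ y) - 1 * P x y = 0 := by simpa using h8
  linarith

theorem ss_comp {K : V → V → ℝ} {β : V → ℝ} (hP : Kern T K β lam P) (hT : T.IsTree) (σ : V ≃ V)
    (hσ : ∀ y z, T.Adj (σ y) (σ z) ↔ T.Adj y z) (hK : ∀ y z, K (σ y) (σ z) = K y z)
    (hβ : ∀ y, β (σ y) = β y) (x y : V) : ss T P (σ x) (σ y) = ss T P x y := by
  have h1 := hP.comp σ hσ hK hβ
  unfold ss
  rw [h1, ← σ.tsum_eq]
  congr 1
  refine tsum_congr fun z => ?_
  have h2 : σ z ∈ br T (σ y) (σ x) ↔ z ∈ br T y x := by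
    show T.dist (σ z) (σ y) < T.dist (σ z) (σ x) ↔ T.dist z y < T.dist z x
    rw [dist_deck σ hσ hT, dist_deck σ hσ hT]
  simp only [h2, h1]

section main

variable [Fintype W]

/-- `v` is the image of a vertex where some eigenvector does not vanish -/
noncomputable def supp (π : V → W) (P : V → V → ℝ) : Finset W :=
  Finset.univ.filter fun v => ∃ x, π x = v ∧ P x x ≠ 0

theorem sum_nbr (hc : IsCover T G π) (x : V) (f : W → ℝ) :
    ∑ w : W, (if G.Adj (π x) w then f w else 0) = ∑ y ∈ T.neighborFinset x, f (π y) := by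
  rw [← Finset.sum_filter]
  have h1 : Finset.univ.filter (fun w => G.Adj (π x) w) = (T.neighborFinset x).image π := by
    ext w
    rw [Finset.mem_filter, Finset.mem_image]
    constructor
    · rintro ⟨-, hw⟩
      obtain ⟨y, hy, rfl⟩ := hc.lift hw
      exact ⟨y, (mem_neighborFinset _ _ _).2 hy, rfl⟩
    · rintro ⟨y, hy, rfl⟩
      exact ⟨Finset.mem_univ _, hc.adj ((mem_neighborFinset _ _ _).1 hy)⟩
  rw [h1, Finset.sum_image]
  intro y hy z hz e
  exact hc.inj ((mem_neighborFinset _ _ _).1 hy) ((mem_neighborFinset _ _ _).1 hz) e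

theorem deg_le (hc : IsCover T G π) (x : V) : (T.neighborFinset x).card ≤ Fintype.card W := by
  rw [← Finset.card_image_of_injOn (f := π) (s := T.neighborFinset x)]
  · exact Finset.card_le_univ _
  · intro y hy z hz e
    exact hc.inj ((mem_neighborFinset _ _ _).1 hy) ((mem_neighborFinset _ _ _).1 hz) e

/-- **The index inequality.** -/
theorem index (hT : T.IsTree) (hc : IsCover T G π) (ha : ∀ v w, a v w = a w v)
    (ha0 : ∀ v w, G.Adj v w → a v w ≠ 0)
    (hP : Kern T (fun x y => a (π x) (π y)) (fun x => b (π x)) lam P)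
    (hne : (supp π P).Nonempty) :
    (∑ v ∈ supp π P, ∑ w ∈ supp π P, if G.Adj v w then (1 : ℝ) else 0) +
      2 * (∑ w ∈ (supp π P)ᶜ, if ∃ v ∈ supp π P, G.Adj v w then (1 : ℝ) else 0) <
      2 * (supp π P).card := by
  obtain ⟨X, hX⟩ : ∃ X, X = supp π P := ⟨_, rfl⟩
  rw [← hX] at hne ⊢
  have hmem : ∀ v, v ∈ X ↔ ∃ x, π x = v ∧ P x x ≠ 0 := by
    intro v
    rw [hX, supp, Finset.mem_filter]
    exact ⟨fun h => h.2, fun h => ⟨Finset.mem_univ _, h⟩⟩
  -- invariance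
  have hdeck : ∀ {x x' : V}, π x = π x' → ∃ σ : V ≃ V, (∀ y z, T.Adj (σ y) (σ z) ↔ T.Adj y z) ∧
      (∀ y, π (σ y) = π y) ∧ σ x = x' ∧ (∀ y z, P (σ y) (σ z) = P y z) ∧
        ∀ y z, ss T P (σ y) (σ z) = ss T P y z := by
    intro x x' h
    obtain ⟨σ, h1, h2, h3⟩ := deck hT hc h
    refine ⟨σ, h1, h2, h3, fun y z => ?_, fun y z => ?_⟩
    · exact hP.comp σ h1 (fun y z => by rw [h2, h2]) (fun y => by rw [h2]) y z
    · exact ss_comp hP hT σ h1 (fun y z => by rw [h2, h2]) (fun y => by rw [h2]) y z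
  have hPinv : ∀ {x x' : V}, π x = π x' → P x x = P x' x' := by
    intro x x' h
    obtain ⟨σ, -, -, h3, h4, -⟩ := hdeck h
    rw [← h3, h4]
  have hmem' : ∀ x, π x ∈ X ↔ P x x ≠ 0 := by
    intro x
    rw [hmem]
    constructor
    · rintro ⟨y, hy, h1⟩
      rwa [← hPinv hy]
    · intro h
      exact ⟨x, rfl, h⟩
  have hSinv : ∀ {x y x' y' : V}, π x = π x' → π y = π y' → T.Adj x y → T.Adj x' y' →
      ss T P x y = ss T P x' y' := by
    intro x y x' y' h h' hxy hxy'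
    obtain ⟨σ, h1, h2, h3, -, h5⟩ := hdeck h
    have e : σ y = y' := by
      have h6 : T.Adj x' (σ y) := by
        rw [← h3]
        exact (h1 _ _).2 hxy
      exact hc.inj h6 hxy' (by rw [h2, h'])
    rw [← h5, h3, e]
  obtain ⟨Sb, hSb⟩ : ∃ Sb : W → W → ℝ, ∀ x y, T.Adj x y → Sb (π x) (π y) = ss T P x y := by
    refine ⟨fun v w => if h : ∃ p : V × V, T.Adj p.1 p.2 ∧ π p.1 = v ∧ π p.2 = w then
      ss T P h.choose.1 h.choose.2 else 0, fun x y hxy => ?_⟩
    have h : ∃ p : V × V, T.Adj p.1 p.2 ∧ π p.1 = π x ∧ π p.2 = π y := ⟨(x, y), hxy, rfl, rfl⟩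
    simp only [dif_pos h]
    exact hSinv h.choose_spec.2.1 h.choose_spec.2.2 h.choose_spec.1 hxy
  obtain ⟨pb, hpb⟩ : ∃ pb : W → ℝ, ∀ x, pb (π x) = P x x := by
    refine ⟨fun v => if h : ∃ x, π x = v then P h.choose h.choose else 0, fun x => ?_⟩
    have h : ∃ y, π y = π x := ⟨x, rfl⟩
    simp only [dif_pos h]
    exact hPinv h.choose_spec
  -- the bounds
  have hA : ∀ z z' : V, |a (π z) (π z')| ≤ ∑ v : W, ∑ w : W, |a v w| := by
    intro z z'
    calc |a (π z) (π z')| ≤ ∑ w : W, |a (π z) w| :=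
          Finset.single_le_sum (f := fun w => |a (π z) w|) (fun w _ => abs_nonneg _) (Finset.mem_univ _)
      _ ≤ _ := Finset.single_le_sum (f := fun v => ∑ w : W, |a v w|)
          (fun v _ => Finset.sum_nonneg fun w _ => abs_nonneg _) (Finset.mem_univ _)
  obtain ⟨Q, hQ⟩ : ∃ Q : W → W → ℝ, Q = fun v w => if G.Adj v w then Sb v w else 0 := ⟨_, rfl⟩
  have h1 : ∀ v ∈ X, ∑ w : W, Q v w = 1 - pb v := by
    intro v hv
    obtain ⟨x, rfl, hx⟩ := (hmem v).1 hv
    rw [hQ]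
    simp only
    rw [sum_nbr hc, hpb, ← hP.total hT hx]
    exact Finset.sum_congr rfl fun y hy => hSb x y ((mem_neighborFinset _ _ _).1 hy)
  have h2 : ∀ v ∈ X, ∀ w ∈ X, Q v w + Q w v = if G.Adj v w then (1 : ℝ) else 0 := by
    intro v hv w hw
    rw [hQ]
    simp only
    by_cases hvw : G.Adj v w
    · rw [if_pos hvw, if_pos hvw.symm, if_pos hvw]
      obtain ⟨x, rfl, hx⟩ := (hmem v).1 hv
      obtain ⟨y, hy, rfl⟩ := hc.lift hvw
      rw [hSb x y hy, hSb y x hy.symm]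
      exact hP.edge hT (deg_le hc) hA (fun z z' => ha _ _) hy (ha0 _ _ hvw) hx ((hmem' y).1 hw)
    · rw [if_neg hvw, if_neg (fun h => hvw h.symm), if_neg hvw, add_zero]
  have h3 : ∀ w ∈ Xᶜ, (if ∃ v ∈ X, G.Adj v w then (1 : ℝ) else 0) ≤ ∑ v ∈ X, Q v w := by
    intro w hw
    rw [Finset.mem_compl] at hw
    split_ifs with hex
    · obtain ⟨v, hv, hvw⟩ := hex
      obtain ⟨x, rfl, hx⟩ := (hmem v).1 hv
      obtain ⟨y, hy, rfl⟩ := hc.lift hvw
      have hy0 : P y y = 0 := by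
        by_contra h
        exact hw ((hmem' y).2 h)
      have h4 := hP.bound hT hy0 (fun z hz => ha0 _ _ (hc.adj hz)) ⟨x, hy.symm, hx⟩
      refine h4.trans (le_of_eq ?_)
      rw [Finset.sum_filter]
      have h5 := sum_nbr hc y (fun v => if v ∈ X then Sb v (π y) else 0)
      have h6 : ∑ z ∈ T.neighborFinset y, (if P z z ≠ 0 then ss T P z y else 0) =
          ∑ z ∈ T.neighborFinset y, (fun v => if v ∈ X then Sb v (π y) else 0) (π z) := by
        refine Finset.sum_congr rfl fun z hz => ?_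
        simp only [hmem' z, hSb z y ((mem_neighborFinset _ _ _).1 hz).symm]
      rw [h6, ← h5, ← Finset.sum_subset (Finset.subset_univ X)]
      · refine Finset.sum_congr rfl fun v hv => ?_
        rw [hQ]
        simp only [if_pos hv, G.adj_comm (π y) v]
      · intro v _ hv
        simp only [if_neg hv, ite_self]
    · refine Finset.sum_nonneg fun v hv => ?_
      rw [hQ]
      simp only
      rw [if_neg fun h => hex ⟨v, hv, h⟩]
  -- the count
  have c1 : ∑ v ∈ X, ∑ w : W, Q v w = ∑ v ∈ X, (1 - pb v) := Finset.sum_congr rfl h1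
  have c2 : ∑ v ∈ X, ∑ w : W, Q v w = (∑ v ∈ X, ∑ w ∈ X, Q v w) + ∑ v ∈ X, ∑ w ∈ Xᶜ, Q v w := by
    rw [← Finset.sum_add_distrib]
    exact Finset.sum_congr rfl fun v _ => (Finset.sum_add_sum_compl X _).symm
  have c3 : 2 * (∑ v ∈ X, ∑ w ∈ X, Q v w) = ∑ v ∈ X, ∑ w ∈ X, if G.Adj v w then (1 : ℝ) else 0 := by
    have e1 : ∑ v ∈ X, ∑ w ∈ X, Q v w = ∑ v ∈ X, ∑ w ∈ X, Q w v := Finset.sum_comm
    rw [two_mul]
    nth_rewrite 2 [e1]
    rw [← Finset.sum_add_distrib]
    refine Finset.sum_congr rfl fun v hv => ?_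
    rw [← Finset.sum_add_distrib]
    exact Finset.sum_congr rfl fun w hw => h2 v hv w hw
  have c4 : (∑ w ∈ Xᶜ, if ∃ v ∈ X, G.Adj v w then (1 : ℝ) else 0) ≤ ∑ v ∈ X, ∑ w ∈ Xᶜ, Q v w := by
    rw [Finset.sum_comm]
    exact Finset.sum_le_sum h3
  have c5 : ∑ v ∈ X, (1 - pb v) < X.card := by
    rw [Finset.sum_sub_distrib, Finset.sum_const, nsmul_eq_mul, mul_one]
    have : 0 < ∑ v ∈ X, pb v := by
      refine Finset.sum_pos (fun v hv => ?_) hne
      obtain ⟨x, rfl, hx⟩ := (hmem v).1 hv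
      rw [hpb]
      exact hP.pos hx
    linarith
  linarith

/-- The index inequality, the complement as an arbitrary set with the right members. -/
theorem index' (hT : T.IsTree) (hc : IsCover T G π) (ha : ∀ v w, a v w = a w v)
    (ha0 : ∀ v w, G.Adj v w → a v w ≠ 0)
    (hP : Kern T (fun x y => a (π x) (π y)) (fun x => b (π x)) lam P)
    (hne : (supp π P).Nonempty) : ∃ Y : Finset W, (∀ w, w ∈ Y ↔ w ∉ supp π P) ∧
    (∑ v ∈ supp π P, ∑ w ∈ supp π P, if G.Adj v w then (1 : ℝ) else 0) +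
      2 * (∑ w ∈ Y, if ∃ v ∈ supp π P, G.Adj v w then (1 : ℝ) else 0) <
      2 * (supp π P).card :=
  ⟨(supp π P)ᶜ, fun _ => Finset.mem_compl, index hT hc ha ha0 hP hne⟩

end main

end Pool.Agent.T2h10.RG
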