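import Pool.Agent.T2h10.RG.Tree

/-!
# The reproducing kernel of an eigenspace of a Jacobi operator on a tree

Owner helper10.
-/

set_option autoImplicit false

namespace Pool.Agent.T2h10.RG

open SimpleGraph
open scoped ENNReal

variable {V : Type} {T : SimpleGraph V} [T.LocallyFinite] {K : V → V → ℝ} {β : V → ℝ} {lam : ℝ}

/-- square summable solutions of the eigenvalue equation -/
def Eig (T : SimpleGraph V) [T.LocallyFinite] (K : V → V → ℝ) (β : V → ℝ) (lam : ℝ) (u : V → ℝ) :
    Prop :=
  Summable (fun x => u x ^ 2) ∧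
    ∀ x, β x * u x + ∑ y ∈ T.neighborFinset x, K x y * u y = lam * u x

/-- `P` is the reproducing kernel -/
structure Kern (T : SimpleGraph V) [T.LocallyFinite] (K : V → V → ℝ) (β : V → ℝ) (lam : ℝ)
    (P : V → V → ℝ) : Prop where
  eig : ∀ x, Eig T K β lam (P x)
  rep : ∀ u, Eig T K β lam u → ∀ x, ∑' y, P x y * u y = u x

theorem exists_kern : ∃ P : V → V → ℝ, Kern T K β lam P := by
  classical
  let ev : V → (lp (fun _ : V => ℝ) 2 →L[ℝ] ℝ) := fun x => lp.evalCLM ℝ (fun _ : V => ℝ) 2 x
  let L : V → (lp (fun _ : V => ℝ) 2 →L[ℝ] ℝ) := fun x =>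
    β x • ev x + ∑ y ∈ T.neighborFinset x, K x y • ev y - lam • ev x
  have hL : ∀ x (u : lp (fun _ : V => ℝ) 2), L x u =
      β x * u x + ∑ y ∈ T.neighborFinset x, K x y * u y - lam * u x := by
    intro x u
    simp only [L, _root_.sub_apply, _root_.add_apply,
      _root_.sum_apply, _root_.smul_apply, smul_eq_mul]
    rfl
  let E : Submodule ℝ (lp (fun _ : V => ℝ) 2) := ⨅ x, LinearMap.ker (L x : lp (fun _ : V => ℝ) 2 →ₗ[ℝ] ℝ)
  have hE : ∀ u : lp (fun _ : V => ℝ) 2, u ∈ E ↔ ∀ x, L x u = 0 := by
    intro u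
    simp only [E, Submodule.mem_iInf, LinearMap.mem_ker]
    rfl
  have hcl : IsClosed (E : Set (lp (fun _ : V => ℝ) 2)) := by
    have h1 : (E : Set (lp (fun _ : V => ℝ) 2)) = ⋂ x, {u | L x u = 0} := by
      ext u
      rw [SetLike.mem_coe, hE, Set.mem_iInter]
      rfl
    rw [h1]
    exact isClosed_iInter fun x => isClosed_eq (L x).continuous continuous_const
  have : CompleteSpace E := hcl.completeSpace_coe
  let φ : V → E := fun x => (InnerProductSpace.toDual ℝ E).symm ((ev x).comp E.subtypeL)
  have hφ : ∀ x (u : E), inner ℝ (φ x) u = (u : lp (fun _ : V => ℝ) 2) x := by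
    intro x u
    simp only [φ, InnerProductSpace.toDual_symm_apply]
    rfl
  refine ⟨fun x y => ((φ x : E) : lp (fun _ : V => ℝ) 2) y, fun x => ⟨?_, fun z => ?_⟩, fun u hu x => ?_⟩
  · have h1 := lp.memℓp ((φ x : E) : lp (fun _ : V => ℝ) 2)
    have h2 := (memℓp_gen_iff (by norm_num)).1 h1
    simpa using h2
  · have h1 := (hE _).1 (φ x).2 z
    rw [hL] at h1
    linarith
  · have hm : Memℓp u 2 := by
      apply memℓp_gen
      simpa using hu.1
    let U : lp (fun _ : V => ℝ) 2 := ⟨u, hm⟩
    have hU : U ∈ E := by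
      rw [hE]
      intro z
      rw [hL]
      have := hu.2 z
      show β z * u z + ∑ y ∈ T.neighborFinset z, K z y * u y - lam * u z = 0
      linarith
    have h1 := hφ x ⟨U, hU⟩
    rw [Submodule.coe_inner, lp.inner_eq_tsum] at h1
    rw [← show U x = u x from rfl, ← h1]
    refine tsum_congr fun y => ?_
    simp [U, mul_comm]

theorem summ_mul {u v : V → ℝ} (hu : Summable fun x => u x ^ 2) (hv : Summable fun x => v x ^ 2) :
    Summable fun x => u x * v x := by
  refine Summable.of_norm_bounded (hu.add hv) fun x => ?_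
  rw [Real.norm_eq_abs, abs_le]
  constructor <;> nlinarith [sq_nonneg (u x + v x), sq_nonneg (u x - v x), sq_nonneg (u x), sq_nonneg (v x)]

theorem summ_ite {f : V → ℝ} (B : Set V) [DecidablePred (· ∈ B)] (hf : Summable f)
    (h0 : ∀ x, 0 ≤ f x) : Summable fun x => if x ∈ B then f x else 0 := by
  refine Summable.of_nonneg_of_le (fun x => ?_) (fun x => ?_) hf
  · split_ifs
    · exact h0 x
    · exact le_rfl
  · split_ifs
    · exact le_rfl
    · exact h0 x

theorem Eig.sub {u v : V → ℝ} (hu : Eig T K β lam u) (hv : Eig T K β lam v) (c : ℝ) :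
    Eig T K β lam (fun x => u x - c * v x) := by
  refine ⟨?_, fun x => ?_⟩
  · refine Summable.of_nonneg_of_le (fun x => sq_nonneg _) (fun x => ?_)
      ((hu.1.mul_left 2).add (hv.1.mul_left (2 * c ^ 2)))
    nlinarith [sq_nonneg (u x + c * v x)]
  · have h1 := hu.2 x
    have h2 := hv.2 x
    have h3 : ∑ y ∈ T.neighborFinset x, K x y * (u y - c * v y) =
        ∑ y ∈ T.neighborFinset x, K x y * u y - c * ∑ y ∈ T.neighborFinset x, K x y * v y := by
      rw [Finset.mul_sum, ← Finset.sum_sub_distrib]
      exact Finset.sum_congr rfl fun y _ => by ring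
    rw [h3]
    linear_combination h1 - c * h2

open Classical in
/-- truncation at an edge both ends of which are zeros -/
theorem Eig.trunc (hT : T.IsTree) {u : V → ℝ} (hu : Eig T K β lam u) {x w : V} (h : T.Adj x w)
    (hx : u x = 0) (hw : u w = 0) : Eig T K β lam (fun z => if z ∈ br T x w then u z else 0) := by
  refine ⟨?_, fun z => ?_⟩
  · refine (summ_ite (br T x w) hu.1 fun x => sq_nonneg _).congr fun z => ?_
    show (if z ∈ br T x w then u z ^ 2 else 0) = (if z ∈ br T x w then u z else 0) ^ 2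
    split_ifs
    · rfl
    · norm_num
  · by_cases hz : z ∈ br T x w
    · simp only [if_pos hz]
      rw [← hu.2 z]
      congr 1
      refine Finset.sum_congr rfl fun y hy => ?_
      rw [mem_neighborFinset] at hy
      split_ifs with hyB
      · rfl
      · obtain ⟨-, rfl⟩ := cross hT h hy hz ((br_or hT h y).resolve_left hyB)
        rw [hw]
    · simp only [if_neg hz]
      rw [mul_zero, mul_zero, zero_add]
      refine Finset.sum_eq_zero fun y hy => ?_
      rw [mem_neighborFinset] at hy
      split_ifs with hyB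
      · obtain ⟨rfl, -⟩ := cross hT h hy.symm hyB ((br_or hT h z).resolve_left hz)
        rw [hx, mul_zero]
      · rw [mul_zero]

section adj

open Classical in
theorem summ_adj {D : ℕ} (hD : ∀ z, (T.neighborFinset z).card ≤ D) {q : V → ℝ} (hq : Summable q)
    (h0 : ∀ z, 0 ≤ q z) : Summable fun p : V × V => if T.Adj p.1 p.2 then q p.1 else 0 := by
  have hrow : ∀ z, HasSum (fun z' => if T.Adj z z' then q z else 0) ((T.neighborFinset z).card * q z) := by
    intro z
    have h1 : (∑ z' ∈ T.neighborFinset z, if T.Adj z z' then q z else 0) =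
        (T.neighborFinset z).card * q z := by
      rw [Finset.sum_congr rfl fun z' hz' => if_pos ((mem_neighborFinset _ _ _).1 hz'),
        Finset.sum_const, nsmul_eq_mul]
    rw [← h1]
    refine hasSum_sum_of_ne_finset_zero fun z' hz' => ?_
    rw [mem_neighborFinset] at hz'
    exact if_neg hz'
  rw [summable_prod_of_nonneg (fun p => by
    show (0 : ℝ) ≤ if T.Adj p.1 p.2 then q p.1 else 0
    split_ifs
    · exact h0 _
    · exact le_rfl)]
  refine ⟨fun z => (hrow z).summable, ?_⟩
  simp only [(hrow _).tsum_eq]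
  refine Summable.of_nonneg_of_le (fun z => mul_nonneg (Nat.cast_nonneg _) (h0 z)) (fun z => ?_)
    (hq.mul_left (D : ℝ))
  exact mul_le_mul_of_nonneg_right (by exact_mod_cast hD z) (h0 z)

open Classical in
/-- the Wronskian of two eigenvectors at an edge is zero -/
theorem wronskian (hT : T.IsTree) {D : ℕ} (hD : ∀ z, (T.neighborFinset z).card ≤ D) {A : ℝ}
    (hA : ∀ z z', |K z z'| ≤ A) (hK : ∀ z z', K z z' = K z' z) {u v : V → ℝ}
    (hu : Eig T K β lam u) (hv : Eig T K β lam v) {x y : V} (h : T.Adj x y) (hxy : K x y ≠ 0) :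
    u x * v y = v x * u y := by
  have hA0 : 0 ≤ A := (abs_nonneg _).trans (hA x x)
  let F : V × V → ℝ := fun p =>
    if T.Adj p.1 p.2 then K p.1 p.2 * (u p.1 * v p.2 - v p.1 * u p.2) else 0
  let q : V → ℝ := fun z => A * (u z ^ 2 + v z ^ 2)
  have hq : Summable q := (hu.1.add hv.1).mul_left A
  have hq0 : ∀ z, 0 ≤ q z := fun z => by positivity
  have hs1 := summ_adj (T := T) hD hq hq0
  have hs2 : Summable fun p : V × V => if T.Adj p.1 p.2 then q p.2 else 0 := by
    have := (Equiv.prodComm V V).summable_iff.2 hs1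
    refine this.congr fun p => ?_
    show (if T.Adj p.2 p.1 then q p.2 else 0) = _
    simp only [T.adj_comm p.2 p.1]
  have hF : Summable F := by
    refine Summable.of_norm_bounded (hs1.add hs2) fun p => ?_
    simp only [F, q]
    split_ifs with hp
    · rw [Real.norm_eq_abs, abs_mul]
      have h1 : |u p.1 * v p.2 - v p.1 * u p.2| ≤ (u p.1 ^ 2 + v p.1 ^ 2) + (u p.2 ^ 2 + v p.2 ^ 2) := by
        rw [abs_le]
        constructor <;> nlinarith [sq_nonneg (u p.1 + v p.2), sq_nonneg (u p.1 - v p.2),
          sq_nonneg (v p.1 + u p.2), sq_nonneg (v p.1 - u p.2), sq_nonneg (u p.1), sq_nonneg (v p.1),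
          sq_nonneg (u p.2), sq_nonneg (v p.2)]
      calc |K p.1 p.2| * |u p.1 * v p.2 - v p.1 * u p.2| ≤
          A * ((u p.1 ^ 2 + v p.1 ^ 2) + (u p.2 ^ 2 + v p.2 ^ 2)) :=
            mul_le_mul (hA _ _) h1 (abs_nonneg _) hA0
        _ = _ := by ring
    · simp
  let f : V → ℝ := fun z => if z ∈ br T x y then 1 else 0
  have hf : ∀ z, |f z| ≤ 1 := fun z => by
    simp only [f]
    split_ifs <;> simp
  have hg : Summable fun p : V × V => f p.1 * F p := by
    refine Summable.of_norm_bounded hF.norm fun p => ?_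
    rw [norm_mul]
    calc ‖f p.1‖ * ‖F p‖ ≤ 1 * ‖F p‖ := mul_le_mul_of_nonneg_right (hf _) (norm_nonneg _)
      _ = _ := one_mul _
  have hanti : ∀ p : V × V, F p.swap = - F p := by
    intro p
    simp only [F, Prod.fst_swap, Prod.snd_swap]
    by_cases hp : T.Adj p.1 p.2
    · rw [if_pos hp, if_pos hp.symm, hK p.2 p.1]
      ring
    · rw [if_neg hp, if_neg (fun h => hp h.symm), neg_zero]
  have hrow : ∀ z, ∑' z', F (z, z') = 0 := by
    intro z
    rw [tsum_eq_sum (s := T.neighborFinset z) (fun z' hz' => if_neg (by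
      rwa [mem_neighborFinset] at hz'))]
    have h1 : ∑ z' ∈ T.neighborFinset z, F (z, z') =
        u z * (∑ z' ∈ T.neighborFinset z, K z z' * v z') -
          v z * (∑ z' ∈ T.neighborFinset z, K z z' * u z') := by
      rw [Finset.mul_sum, Finset.mul_sum, ← Finset.sum_sub_distrib]
      refine Finset.sum_congr rfl fun z' hz' => ?_
      rw [mem_neighborFinset] at hz'
      simp only [F, if_pos hz']
      ring
    rw [h1]
    have h2 := hu.2 z
    have h3 := hv.2 z
    linear_combination u z * h3 - v z * h2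
  have h0 : ∑' p : V × V, f p.1 * F p = 0 := by
    rw [hg.tsum_prod]
    refine (tsum_congr fun z => ?_).trans tsum_zero
    show ∑' z', f z * F (z, z') = 0
    rw [tsum_mul_left, hrow, mul_zero]
  have hg' : Summable fun p : V × V => f p.2 * F p := by
    have h1 := (Equiv.prodComm V V).summable_iff.2 hg
    refine h1.neg.congr fun p => ?_
    show -(f p.2 * F p.swap) = _
    rw [hanti]
    ring
  have h1 : ∑' p : V × V, f p.2 * F p = 0 := by
    have h2 := (Equiv.prodComm V V).tsum_eq (fun p : V × V => f p.1 * F p)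
    rw [h0] at h2
    have h3 : (fun p : V × V => f p.2 * F p) = fun p => -(f ((Equiv.prodComm V V) p).1 * F ((Equiv.prodComm V V) p)) := by
      funext p
      show _ = -(f p.2 * F p.swap)
      rw [hanti]
      ring
    rw [h3, tsum_neg, h2, neg_zero]
  have h2 : ∑' p : V × V, (f p.1 * F p - f p.2 * F p) = 0 := by
    rw [hg.tsum_sub hg', h0, h1, sub_zero]
  have hxb : x ∈ br T x y := mem_br hT h
  have hyb : y ∉ br T x y := fun hy => br_not hy (mem_br hT h.symm)
  have hne : ((x, y) : V × V) ≠ (y, x) := fun e => h.ne (congrArg Prod.fst e)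
  rw [tsum_eq_sum (s := {(x, y), (y, x)}) (fun p hp => ?_), Finset.sum_pair hne] at h2
  · simp only [f, F, if_pos hxb, if_neg hyb, if_pos h, if_pos h.symm, hK y x] at h2
    have h3 : K x y * (u x * v y - v x * u y) = 0 := by linear_combination h2 / 2
    exact sub_eq_zero.1 ((mul_eq_zero.1 h3).resolve_left hxy)
  · simp only [Finset.mem_insert, Finset.mem_singleton, not_or] at hp
    by_cases hadj : T.Adj p.1 p.2
    · have h3 : p.1 ∈ br T x y ↔ p.2 ∈ br T x y := by
        constructor
        · intro h4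
          by_contra h5
          obtain ⟨e1, e2⟩ := cross hT h hadj h4 ((br_or hT h p.2).resolve_left h5)
          exact hp.1 (Prod.ext e1 e2)
        · intro h4
          by_contra h5
          obtain ⟨e1, e2⟩ := cross hT h hadj.symm h4 ((br_or hT h p.1).resolve_left h5)
          exact hp.2 (Prod.ext e2 e1)
      simp only [f, h3, sub_self]
    · simp only [F, if_neg hadj, mul_zero, sub_self]

end adj

end Pool.Agent.T2h10.RG
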