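import Pool.Agent.T2h10.RG.Ker

/-!
# Local identities for the reproducing kernel of an eigenspace on a tree

Owner helper10.
-/

set_option autoImplicit false

namespace Pool.Agent.T2h10.RG

open SimpleGraph
open scoped Classical

variable {V : Type} {T : SimpleGraph V} [T.LocallyFinite] {K : V → V → ℝ} {β : V → ℝ} {lam : ℝ}
  {P : V → V → ℝ}

theorem Kern.diag (hP : Kern T K β lam P) (x : V) : ∑' z, P x z ^ 2 = P x x := by
  rw [← hP.rep _ (hP.eig x) x]
  exact tsum_congr fun z => by rw [sq]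

theorem Kern.nonneg (hP : Kern T K β lam P) (x : V) : 0 ≤ P x x := by
  rw [← hP.diag]
  exact tsum_nonneg fun z => sq_nonneg _

theorem Kern.pos (hP : Kern T K β lam P) {x : V} (h : P x x ≠ 0) : 0 < P x x :=
  lt_of_le_of_ne (hP.nonneg x) (Ne.symm h)

theorem Kern.symm (hP : Kern T K β lam P) (x y : V) : P x y = P y x := by
  rw [← hP.rep _ (hP.eig x) y, ← hP.rep _ (hP.eig y) x]
  exact tsum_congr fun z => mul_comm _ _

theorem Kern.zero (hP : Kern T K β lam P) {x : V} (h : P x x = 0) {u : V → ℝ}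
    (hu : Eig T K β lam u) : u x = 0 := by
  have h1 : HasSum (fun z => P x z ^ 2) 0 := by
    rw [← h, ← hP.diag x]
    exact (hP.eig x).1.hasSum
  have h2 := (hasSum_zero_iff_of_nonneg fun z => sq_nonneg (P x z)).1 h1
  rw [← hP.rep u hu x]
  have h3 : ∀ z, P x z = 0 := fun z => by
    have := congrFun h2 z
    simpa using this
  simp [h3]

/-- the part of the mass of `P x` beyond the neighbour `y`, divided by the whole mass -/
noncomputable def ss (T : SimpleGraph V) (P : V → V → ℝ) (x y : V) : ℝ :=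
  (∑' z, if z ∈ br T y x then P x z ^ 2 else 0) / P x x

omit [T.LocallyFinite] in
theorem split (hT : T.IsTree) {f : V → ℝ} (hf : Summable f) (h0 : ∀ z, 0 ≤ f z) {x y : V}
    (h : T.Adj x y) : (∑' z, if z ∈ br T x y then f z else 0) +
      (∑' z, if z ∈ br T y x then f z else 0) = ∑' z, f z := by
  rw [← (summ_ite (br T x y) hf h0).tsum_add (summ_ite (br T y x) hf h0)]
  refine tsum_congr fun z => ?_
  by_cases hz : z ∈ br T x y
  · rw [if_pos hz, if_neg (br_not hz), add_zero]
  · rw [if_neg hz, if_pos ((br_or hT h z).resolve_left hz), zero_add]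

theorem Kern.split (hP : Kern T K β lam P) (hT : T.IsTree) {x y : V} (h : T.Adj x y) :
    (∑' z, if z ∈ br T x y then P x z ^ 2 else 0) +
      (∑' z, if z ∈ br T y x then P x z ^ 2 else 0) = P x x := by
  rw [RG.split hT (hP.eig x).1 (fun z => sq_nonneg _) h, hP.diag]

/-- an edge between two vertices of the support -/
theorem Kern.edge (hP : Kern T K β lam P) (hT : T.IsTree) {D : ℕ}
    (hD : ∀ z, (T.neighborFinset z).card ≤ D) {A : ℝ}
    (hA : ∀ z z', |K z z'| ≤ A) (hK : ∀ z z', K z z' = K z' z) {x y : V} (h : T.Adj x y)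
    (hxy : K x y ≠ 0) (hx : P x x ≠ 0) (hy : P y y ≠ 0) : ss T P x y + ss T P y x = 1 := by
  obtain ⟨t, ht⟩ : ∃ t, t = P x y / P x x := ⟨_, rfl⟩
  have h1 : ∀ u, Eig T K β lam u → u y = t * u x := by
    intro u hu
    have h2 := wronskian hT hD hA hK hu (hP.eig x) h hxy
    rw [ht]
    field_simp
    linarith
  have h2 : ∀ z, P y z = t * P x z := by
    intro z
    rw [hP.symm y z, hP.symm x z]
    exact h1 _ (hP.eig z)
  have h3 : P y y = t ^ 2 * P x x := by
    rw [h2, h1 _ (hP.eig x)]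
    ring
  have ht0 : t ≠ 0 := by
    rintro rfl
    apply hy
    rw [h3]
    ring
  have h4 : (∑' z, if z ∈ br T x y then P y z ^ 2 else 0) =
      t ^ 2 * ∑' z, if z ∈ br T x y then P x z ^ 2 else 0 := by
    rw [← tsum_mul_left]
    refine tsum_congr fun z => ?_
    rw [h2]
    split_ifs
    · ring
    · ring
  have h5 := hP.split hT h
  unfold ss
  rw [h4, h3, mul_div_mul_left _ _ (pow_ne_zero 2 ht0), ← add_div, add_comm, h5, div_self hx]

/-- the total mass -/
theorem Kern.total (hP : Kern T K β lam P) (hT : T.IsTree) {x : V} (hx : P x x ≠ 0) :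
    ∑ y ∈ T.neighborFinset x, ss T P x y = 1 - P x x := by
  have h1 : ∀ z, P x z ^ 2 = (if z = x then P x x ^ 2 else 0) +
      ∑ y ∈ T.neighborFinset x, if z ∈ br T y x then P x z ^ 2 else 0 := by
    intro z
    by_cases hz : z = x
    · subst hz
      rw [if_pos rfl, Finset.sum_eq_zero, add_zero]
      intro y hy
      rw [mem_neighborFinset] at hy
      exact if_neg (br_not (mem_br hT hy))
    · rw [if_neg hz, zero_add]
      obtain ⟨y, ⟨hy, hd⟩, hu⟩ := closer hT (Ne.symm hz)
      rw [Finset.sum_eq_single y]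
      · rw [if_pos]
        show T.dist z y < T.dist z x
        rwa [dist_comm, dist_comm (u := z)]
      · intro y' hy' hne
        refine if_neg fun hb => hne (hu y' ⟨(mem_neighborFinset _ _ _).1 hy', ?_⟩)
        rw [dist_comm, dist_comm (u := x)]
        exact hb
      · intro hy'
        exact absurd ((mem_neighborFinset _ _ _).2 hy) hy'
  have hs := (hP.eig x).1
  have hi : ∀ y ∈ T.neighborFinset x, Summable fun z => if z ∈ br T y x then P x z ^ 2 else 0 :=
    fun y _ => summ_ite (br T y x) hs fun z => sq_nonneg _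
  have h2 : P x x = P x x ^ 2 + ∑ y ∈ T.neighborFinset x, ∑' z, if z ∈ br T y x then P x z ^ 2 else 0 := by
    rw [← Summable.tsum_finsetSum hi]
    nth_rewrite 1 [← hP.diag x]
    rw [tsum_congr h1, Summable.tsum_add, tsum_ite_eq]
    · exact (hasSum_ite_eq x _).summable
    · exact summable_sum hi
  unfold ss
  rw [← Finset.sum_div, div_eq_iff hx]
  linarith

omit [T.LocallyFinite] in
theorem disj (hT : T.IsTree) {w y y' z : V} (h : T.Adj w y) (h' : T.Adj w y') (hz : z ∈ br T y w)
    (hz' : z ∈ br T y' w) : y = y' := by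
  have hne : w ≠ z := by
    rintro rfl
    exact br_not hz (mem_br hT h)
  refine (closer hT hne).unique ⟨h, ?_⟩ ⟨h', ?_⟩
  · rw [dist_comm, dist_comm (u := w)]
    exact hz
  · rw [dist_comm, dist_comm (u := w)]
    exact hz'

/-- a boundary vertex of the support -/
theorem Kern.bound (hP : Kern T K β lam P) (hT : T.IsTree) {w : V} (hw : P w w = 0)
    (hKw : ∀ y, T.Adj w y → K w y ≠ 0) (hex : ∃ x, T.Adj w x ∧ P x x ≠ 0) :
    1 ≤ ∑ x ∈ (T.neighborFinset w).filter (fun x => P x x ≠ 0), ss T P x w := by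
  obtain ⟨S, hS⟩ : ∃ S, S = (T.neighborFinset w).filter (fun x => P x x ≠ 0) := ⟨_, rfl⟩
  rw [← hS]
  have hmem : ∀ y, y ∈ S ↔ T.Adj w y ∧ P y y ≠ 0 := by
    intro y
    rw [hS, Finset.mem_filter, mem_neighborFinset]
  obtain ⟨M, hM⟩ : ∃ M : V → ℝ, M = fun y => ∑' z, if z ∈ br T y w then P y z ^ 2 else 0 := ⟨_, rfl⟩
  obtain ⟨N, hN⟩ : ∃ N : V → ℝ, N = fun y => M y / P y y ^ 2 := ⟨_, rfl⟩
  have hMpos : ∀ y ∈ S, 0 < M y := by
    intro y hy
    obtain ⟨h1, h2⟩ := (hmem y).1 hy
    have h3 := summ_ite (br T y w) (hP.eig y).1 fun z => sq_nonneg _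
    have h4 := h3.le_tsum y fun z _ => by
      split_ifs
      · exact sq_nonneg _
      · exact le_rfl
    rw [if_pos (mem_br hT h1.symm)] at h4
    rw [hM]
    exact lt_of_lt_of_le (pow_pos (hP.pos h2) 2) h4
  have hNpos : ∀ y ∈ S, 0 < N y := by
    intro y hy
    rw [hN]
    exact div_pos (hMpos y hy) (pow_pos (hP.pos ((hmem y).1 hy).2) 2)
  have hss : ∀ y ∈ S, ss T P y w = 1 - P y y * N y := by
    intro y hy
    obtain ⟨h1, h2⟩ := (hmem y).1 hy
    have h3 := hP.split hT h1.symm
    have h4 : M y = ∑' z, if z ∈ br T y w then P y z ^ 2 else 0 := by rw [hM]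
    rw [← h4] at h3
    unfold ss
    rw [← eq_sub_iff_add_eq'] at h3
    rw [h3, hN]
    field_simp
  -- the lower bound for the mass in a branch
  have hlow : ∀ u, Eig T K β lam u → ∀ y ∈ S,
      N y * u y ^ 2 ≤ ∑' z, if z ∈ br T y w then u z ^ 2 else 0 := by
    intro u hu y hy
    obtain ⟨h1, h2⟩ := (hmem y).1 hy
    obtain ⟨c, hc⟩ : ∃ c, c = u y / P y y := ⟨_, rfl⟩
    have e1 := hu.sub (hP.eig y) c
    have e2 : u y - c * P y y = 0 := by
      rw [hc]
      field_simp
      ring
    have e3 : u w - c * P y w = 0 := hP.zero hw e1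
    have e4 := e1.trunc hT h1.symm e2 e3
    have e5 := hP.rep _ e4 y
    rw [if_pos (mem_br hT h1.symm), e2] at e5
    have s1 := summ_ite (br T y w) (hP.eig y).1 fun z => sq_nonneg _
    have s2 := summ_ite (br T y w) e1.1 fun z => sq_nonneg _
    have s3 : Summable fun z => P y z * (if z ∈ br T y w then u z - c * P y z else 0) :=
      summ_mul (hP.eig y).1 e4.1
    have e6 : (∑' z, if z ∈ br T y w then u z ^ 2 else 0) =
        (∑' z, if z ∈ br T y w then (u z - c * P y z) ^ 2 else 0) +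
          (2 * c * (∑' z, P y z * (if z ∈ br T y w then u z - c * P y z else 0)) + c ^ 2 * M y) := by
      rw [hM]
      simp only
      rw [← tsum_mul_left, ← tsum_mul_left, ← (s3.mul_left (2 * c)).tsum_add (s1.mul_left (c ^ 2)),
        ← s2.tsum_add ((s3.mul_left (2 * c)).add (s1.mul_left (c ^ 2)))]
      refine tsum_congr fun z => ?_
      split_ifs
      · ring
      · ring
    rw [e6, e5, mul_zero, zero_add]
    have e7 : N y * u y ^ 2 = c ^ 2 * M y := by
      rw [hN, hc]
      field_simp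
    rw [e7]
    have e8 : 0 ≤ ∑' z, if z ∈ br T y w then (u z - c * P y z) ^ 2 else 0 :=
      tsum_nonneg fun z => by
        split_ifs
        · exact sq_nonneg _
        · exact le_rfl
    linarith
  obtain ⟨Z, hZ⟩ : ∃ Z, Z = ∑ y ∈ S, K w y ^ 2 / N y := ⟨_, rfl⟩
  have hapos : ∀ y ∈ S, 0 < K w y ^ 2 / N y := fun y hy =>
    div_pos (by have := hKw y ((hmem y).1 hy).1; positivity) (hNpos y hy)
  have hne : S.Nonempty := by
    obtain ⟨x, h1, h2⟩ := hex
    exact ⟨x, (hmem x).2 ⟨h1, h2⟩⟩
  have hZpos : 0 < Z := by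
    rw [hZ]
    exact Finset.sum_pos hapos hne
  have hmain : ∀ x ∈ S, (K w x ^ 2 / N x) / Z ≤ ss T P x w := by
    intro x hx
    obtain ⟨h1, h2⟩ := (hmem x).1 hx
    have hu := hP.eig x
    have hQ : ∑ y ∈ S, N y * P x y ^ 2 ≤ P x x := by
      have hi : ∀ y ∈ S, Summable fun z => if z ∈ br T y w then P x z ^ 2 else 0 :=
        fun y _ => summ_ite (br T y w) hu.1 fun z => sq_nonneg _
      calc ∑ y ∈ S, N y * P x y ^ 2 ≤ ∑ y ∈ S, ∑' z, (if z ∈ br T y w then P x z ^ 2 else 0) :=
            Finset.sum_le_sum fun y hy => hlow _ hu y hy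
        _ = ∑' z, ∑ y ∈ S, (if z ∈ br T y w then P x z ^ 2 else 0) :=
            (Summable.tsum_finsetSum hi).symm
        _ ≤ ∑' z, P x z ^ 2 := by
            refine (summable_sum hi).tsum_le_tsum (fun z => ?_) hu.1
            by_cases hz : ∃ y ∈ S, z ∈ br T y w
            · obtain ⟨y, hy, hyz⟩ := hz
              rw [Finset.sum_eq_single_of_mem y hy, if_pos hyz]
              intro y' hy' hne'
              refine if_neg fun hb => hne' ?_
              exact disj hT ((hmem y').1 hy').1 ((hmem y).1 hy).1 hb hyz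
            · push Not at hz
              rw [Finset.sum_eq_zero fun y hy => if_neg (hz y hy)]
              exact sq_nonneg _
        _ = P x x := hP.diag x
    have hcons : ∑ y ∈ S, K w y * P x y = 0 := by
      have h3 := hu.2 w
      have h4 : P x w = 0 := hP.zero hw hu
      rw [h4, mul_zero, mul_zero, zero_add] at h3
      rw [← h3, hS, Finset.sum_filter]
      refine Finset.sum_congr rfl fun y _ => ?_
      split_ifs with h5
      · rfl
      · rw [hP.zero (not_not.1 h5) hu, mul_zero]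
    have hce : K w x * P x x = - ∑ y ∈ S.erase x, K w y * P x y := by
      rw [← Finset.add_sum_erase S _ hx] at hcons
      linarith
    have hcs : (∑ y ∈ S.erase x, K w y * P x y) ^ 2 ≤
        (∑ y ∈ S.erase x, K w y ^ 2 / N y) * (∑ y ∈ S.erase x, N y * P x y ^ 2) := by
      refine Finset.sum_sq_le_sum_mul_sum_of_sq_le_mul _ (fun y hy => ?_) (fun y hy => ?_) fun y hy => ?_
      · exact (hapos y (Finset.mem_of_mem_erase hy)).le
      · exact mul_nonneg (hNpos y (Finset.mem_of_mem_erase hy)).le (sq_nonneg _)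
      · refine le_of_eq ?_
        have := (hNpos y (Finset.mem_of_mem_erase hy)).ne'
        field_simp
    have hZx : ∑ y ∈ S.erase x, K w y ^ 2 / N y = Z - K w x ^ 2 / N x := by
      rw [hZ, ← Finset.add_sum_erase S _ hx]
      ring
    have hQx : ∑ y ∈ S.erase x, N y * P x y ^ 2 ≤ P x x - N x * P x x ^ 2 := by
      rw [← Finset.add_sum_erase S _ hx] at hQ
      linarith
    have hZ0 : 0 ≤ Z - K w x ^ 2 / N x := by
      rw [← hZx]
      exact Finset.sum_nonneg fun y hy => (hapos y (Finset.mem_of_mem_erase hy)).le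
    rw [hss x hx]
    have hp := hP.pos h2
    have hn := hNpos x hx
    obtain ⟨a, ha⟩ : ∃ a, a = K w x ^ 2 / N x := ⟨_, rfl⟩
    have hk : K w x ^ 2 = a * N x := by
      rw [ha]
      field_simp
    rw [← ha] at hZ0 hZx ⊢
    rw [hZx] at hcs
    have h6 : (K w x * P x x) ^ 2 ≤ (Z - a) * (P x x - N x * P x x ^ 2) := by
      rw [hce, neg_sq]
      exact hcs.trans (mul_le_mul_of_nonneg_left hQx hZ0)
    rw [mul_pow, hk] at h6
    have h7 : P x x * (Z * (P x x * N x)) ≤ P x x * (Z - a) := by nlinarith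
    have h8 := le_of_mul_le_mul_left h7 hp
    rw [div_le_iff₀ hZpos]
    nlinarith
  calc (1 : ℝ) = ∑ x ∈ S, (K w x ^ 2 / N x) / Z := by
        rw [← Finset.sum_div, ← hZ, div_self hZpos.ne']
    _ ≤ _ := Finset.sum_le_sum hmain

end Pool.Agent.T2h10.RG
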