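import Pool.Agent.T2h10.RG.Cnt
import Pool.Agent.T2h10.RG.Defs

/-!
# Eigenvectors of the lift of a Jacobi matrix on `K_{r,g}`

Owner helper10.
-/

set_option autoImplicit false

namespace Pool.Agent.T2h10.RG

open SimpleGraph

/-- The eigenvectors vanish at the green vertices, and an eigenvalue is the potential of more than `g` red vertices. -/
theorem green_and_red {r g : ℕ} (hg : 2 ≤ g) (hrg : g < r) (J : Jacobi (completeBipartiteGraph (Fin r) (Fin g)))
    {V : Type} {T : SimpleGraph V} [T.LocallyFinite] {π : V → Fin r ⊕ Fin g}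
    (hπ : IsUniversalCover T (completeBipartiteGraph (Fin r) (Fin g)) π) {lam : ℝ} {u : V → ℂ}
    (hu : IsEigenvector J T π lam u) :
    (∀ x, (∃ j, π x = Sum.inr j) → u x = 0) ∧
      g < (Finset.univ.filter fun i : Fin r => J.b (Sum.inl i) = lam).card := by
  classical
  have hT := hπ.tree
  have hc : IsCover T (completeBipartiteGraph (Fin r) (Fin g)) π := hπ.cover
  obtain ⟨P, hP⟩ := exists_kern (T := T) (K := fun x y => J.a (π x) (π y))
    (β := fun x => J.b (π x)) (lam := lam)
  have hre : Eig T (fun x y => J.a (π x) (π y)) (fun x => J.b (π x)) lam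
      (fun x => (u x).re) := by
    refine ⟨Summable.of_nonneg_of_le (fun x => sq_nonneg _) (fun x => ?_) hu.summable, fun x => ?_⟩
    · rw [← sq_abs]
      exact pow_le_pow_left₀ (abs_nonneg _) (Complex.abs_re_le_norm _) 2
    · have h := congrArg Complex.re (hu.eq x)
      simpa [lift, Complex.re_sum] using h
  have him : Eig T (fun x y => J.a (π x) (π y)) (fun x => J.b (π x)) lam
      (fun x => (u x).im) := by
    refine ⟨Summable.of_nonneg_of_le (fun x => sq_nonneg _) (fun x => ?_) hu.summable, fun x => ?_⟩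
    · rw [← sq_abs]
      exact pow_le_pow_left₀ (abs_nonneg _) (Complex.abs_im_le_norm _) 2
    · have h := congrArg Complex.im (hu.eq x)
      simpa [lift, Complex.im_sum] using h
  have hx0 : ∀ x, P x x = 0 → u x = 0 := fun x hx =>
    Complex.ext (hP.zero hx hre) (hP.zero hx him)
  have hmem : ∀ x, P x x ≠ 0 → π x ∈ supp π P := fun x hx => by
    rw [supp, Finset.mem_filter]
    exact ⟨Finset.mem_univ _, x, rfl, hx⟩
  have hne : (supp π P).Nonempty := by
    obtain ⟨x, hx⟩ : ∃ x, u x ≠ 0 := by
      by_contra hcon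
      push Not at hcon
      exact hu.ne_zero (funext hcon)
    exact ⟨π x, hmem x fun h => hx (hx0 x h)⟩
  obtain ⟨Y, hY, key⟩ := index' hT hc J.symm (fun v w h => (J.pos v w h).ne') hP hne
  obtain ⟨h1, h2⟩ := count hg hrg (supp π P) (by
    refine lt_of_le_of_lt (le_of_eq ?_) key
    refine congrArg₂ (· + ·) ?_ (congrArg (fun t : ℝ => 2 * t) ?_)
    · exact Finset.sum_congr rfl fun v _ => Finset.sum_congr rfl fun w _ => if_congr Iff.rfl rfl rfl
    · refine Finset.sum_congr (Finset.ext fun w => ?_) fun w _ => if_congr Iff.rfl rfl rfl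
      rw [hY, Finset.mem_compl])
  refine ⟨?_, lt_of_lt_of_le h2 (Finset.card_le_card fun i hi => ?_)⟩
  · rintro x ⟨j, hj⟩
    by_contra hx
    refine h1 j ?_
    rw [← hj]
    exact hmem x fun h => hx (hx0 x h)
  · rw [Finset.mem_filter] at hi ⊢
    refine ⟨Finset.mem_univ _, ?_⟩
    obtain ⟨-, hi⟩ := hi
    rw [supp, Finset.mem_filter] at hi
    obtain ⟨-, x, hx, hpx⟩ := hi
    have h3 := (hP.eig x).2 x
    have h4 : ∑ y ∈ T.neighborFinset x, J.a (π x) (π y) * P x y = 0 := by
      refine Finset.sum_eq_zero fun y hy => ?_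
      have h5 := hc.adj ((mem_neighborFinset _ _ _).1 hy)
      rw [hx] at h5
      have h6 : ∃ j, π y = Sum.inr j := by
        rcases hy' : π y with i' | j
        · rw [hy'] at h5
          simp [completeBipartiteGraph_adj] at h5
        · exact ⟨j, rfl⟩
      obtain ⟨j, hj⟩ := h6
      have h7 : P y y = 0 := by
        by_contra h
        refine h1 j ?_
        rw [← hj]
        exact hmem y h
      rw [hP.zero h7 (hP.eig x), mul_zero]
    rw [h4, add_zero] at h3
    simp only [hx] at h3
    exact mul_right_cancel₀ hpx h3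

end Pool.Agent.T2h10.RG
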