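import Mathlib

/-!
# Trees which cover a graph: half trees and deck transformations

Owner helper10.
-/

set_option autoImplicit false

namespace Pool.Agent.T2h10.RG

open SimpleGraph

variable {V W : Type} {T : SimpleGraph V} {G : SimpleGraph W} {π : V → W}

/-- every vertex different from `z` has exactly one neighbour which is closer to `z` -/
theorem closer (hT : T.IsTree) {x z : V} (h : x ≠ z) :
    ∃! y, T.Adj x y ∧ T.dist y z < T.dist x z := by
  obtain ⟨p, hp, hl⟩ := hT.connected.exists_path_of_dist x z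
  cases p with
  | nil => exact absurd rfl h
  | @cons _ y _ hxy q =>
    have hq : q.length + 1 = T.dist x z := by simpa using hl
    have hyz : T.dist y z ≤ q.length := dist_le q
    refine ⟨y, ⟨hxy, by omega⟩, ?_⟩
    rintro y' ⟨hxy', hd⟩
    obtain ⟨q', hq'p, hq'l⟩ := hT.connected.exists_path_of_dist y' z
    have h1 : (Walk.cons hxy' q').length = T.dist x z := by
      have h2 : T.dist x z ≤ (Walk.cons hxy' q').length := dist_le _
      simp only [Walk.length_cons] at h2 ⊢
      omega
    have h3 := (Walk.cons hxy' q').isPath_of_length_eq_dist h1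
    have h4 := (hT.existsUnique_path x z).unique h3 hp
    have h5 := congrArg (fun w => w.snd) h4
    simpa using h5

/-- the half tree on the side of `x` of the edge between `x` and `y` -/
def br (T : SimpleGraph V) (x y : V) : Set V := {z | T.dist z x < T.dist z y}

theorem br_or (hT : T.IsTree) {x y : V} (h : T.Adj x y) (z : V) : z ∈ br T x y ∨ z ∈ br T y x := by
  have := hT.dist_ne_of_adj z h
  simp only [br, Set.mem_setOf_eq]
  omega

theorem br_not {x y z : V} (h : z ∈ br T x y) : z ∉ br T y x := by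
  simp only [br, Set.mem_setOf_eq] at *
  omega

theorem mem_br (hT : T.IsTree) {x y : V} (h : T.Adj x y) : x ∈ br T x y := by
  simp only [br, Set.mem_setOf_eq, dist_self]
  exact hT.connected.pos_dist_of_ne h.ne

theorem cross (hT : T.IsTree) {x y z z' : V} (h : T.Adj x y) (hz : T.Adj z z') (h1 : z ∈ br T x y)
    (h2 : z' ∈ br T y x) : z = x ∧ z' = y := by
  simp only [br, Set.mem_setOf_eq] at h1 h2
  have a1 := hT.dist_eq_dist_add_one_of_adj z h
  have a2 := hT.dist_eq_dist_add_one_of_adj z' h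
  have a3 := hT.dist_eq_dist_add_one_of_adj x hz
  have a4 := hT.dist_eq_dist_add_one_of_adj y hz
  rw [dist_comm (u := x), dist_comm (u := x)] at a3
  rw [dist_comm (u := y), dist_comm (u := y)] at a4
  have b : z' = y := by
    by_contra hne
    obtain ⟨z'', ⟨c1, c2⟩, -⟩ := closer hT hne
    have hx : z' ≠ x := by
      rintro rfl
      rw [dist_self] at h2
      omega
    obtain ⟨p, -, hu⟩ := closer hT hx
    have e1 : z = p := hu z ⟨hz.symm, by omega⟩
    have e2 : z'' = p := by
      refine hu z'' ⟨c1, ?_⟩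
      have := hT.dist_ne_of_adj z'' h
      have h3 := hT.dist_eq_dist_add_one_of_adj z'' h
      omega
    have e3 : z = z'' := e1.trans e2.symm
    subst e3
    omega
  subst b
  refine ⟨?_, rfl⟩
  rw [dist_self] at a2 a4
  have h0 : T.dist z x = 0 := by omega
  exact (hT.connected.dist_eq_zero_iff).1 h0

/-- `π` is a covering map -/
def IsCover (T : SimpleGraph V) (G : SimpleGraph W) (π : V → W) : Prop :=
  ∀ x, Set.BijOn π (T.neighborSet x) (G.neighborSet (π x))

theorem IsCover.adj (hc : IsCover T G π) {x y : V} (h : T.Adj x y) : G.Adj (π x) (π y) :=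
  (hc x).mapsTo h

theorem IsCover.inj (hc : IsCover T G π) {x y z : V} (h : T.Adj x y) (h' : T.Adj x z)
    (e : π y = π z) : y = z := (hc x).injOn h h' e

theorem IsCover.lift (hc : IsCover T G π) {x : V} {w : W} (h : G.Adj (π x) w) :
    ∃ y, T.Adj x y ∧ π y = w := (hc x).surjOn h

theorem hom_ext (hT : T.IsTree) (hc : IsCover T G π) {σ τ : V → V}
    (hσ : ∀ y z, T.Adj y z → T.Adj (σ y) (σ z)) (hτ : ∀ y z, T.Adj y z → T.Adj (τ y) (τ z))
    (pσ : ∀ y, π (σ y) = π y) (pτ : ∀ y, π (τ y) = π y) {x : V} (hx : σ x = τ x) (z : V) :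
    σ z = τ z := by
  have key : ∀ {a b : V} (p : T.Walk a b), σ a = τ a → σ b = τ b := by
    intro a b p
    induction p with
    | nil => exact id
    | @cons a c b hac q ih =>
      intro ha
      apply ih
      have h1 := hσ _ _ hac
      have h2 := hτ _ _ hac
      rw [← ha] at h2
      exact hc.inj h1 h2 (by rw [pσ, pτ])
  obtain ⟨p⟩ := hT.connected x z
  exact key p hx

open Classical in
theorem hom_ex (hT : T.IsTree) (hc : IsCover T G π) {x x' : V} (h : π x = π x') :
    ∃ σ : V → V, (∀ y z, T.Adj y z → T.Adj (σ y) (σ z)) ∧ (∀ y, π (σ y) = π y) ∧ σ x = x' := by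
  have hpar : ∀ z, ∃ y, z ≠ x → T.Adj z y ∧ T.dist y x < T.dist z x := by
    intro z
    by_cases hz : z = x
    · exact ⟨z, fun h => absurd hz h⟩
    · obtain ⟨y, hy, -⟩ := closer hT hz
      exact ⟨y, fun _ => hy⟩
  choose par hpar using hpar
  have hlift : ∀ (y : V) (w : W), ∃ y', G.Adj (π y) w → T.Adj y y' ∧ π y' = w := by
    intro y w
    by_cases hw : G.Adj (π y) w
    · obtain ⟨y', h1⟩ := hc.lift hw
      exact ⟨y', fun _ => h1⟩
    · exact ⟨y, fun h => absurd h hw⟩
  choose lift hlift using hlift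
  let F : (z : V) → ((y : V) → T.dist y x < T.dist z x → V) → V := fun z rec =>
    if hz : z = x then x' else lift (rec (par z) (hpar z hz).2) (π z)
  let σ : V → V := (measure fun z : V => T.dist z x).wf.fix F
  have hσ : ∀ z, σ z = if hz : z = x then x' else lift (σ (par z)) (π z) := by
    intro z
    exact WellFounded.fix_eq _ F z
  have hσx : σ x = x' := by rw [hσ, dif_pos rfl]
  have hπ : ∀ n z, T.dist z x = n → π (σ z) = π z ∧ (z ≠ x → T.Adj (σ (par z)) (σ z)) := by
    intro n
    induction n using Nat.strong_induction_on with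
    | _ n ih =>
      intro z hzn
      by_cases hz : z = x
      · subst hz
        rw [hσx]
        exact ⟨h.symm, fun h => absurd rfl h⟩
      · obtain ⟨h1, h2⟩ := hpar z hz
        obtain ⟨h3, -⟩ := ih _ (by omega) (par z) rfl
        have h4 : G.Adj (π (σ (par z))) (π z) := by
          rw [h3]
          exact hc.adj h1.symm
        have h5 := hlift _ _ h4
        rw [hσ z, dif_neg hz]
        exact ⟨h5.2, fun _ => h5.1⟩
  refine ⟨σ, ?_, fun y => (hπ _ y rfl).1, hσx⟩
  have key : ∀ y z, T.Adj y z → T.dist y x < T.dist z x → T.Adj (σ y) (σ z) := by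
    intro y z hyz hd
    have hz : z ≠ x := by
      rintro rfl
      rw [dist_self] at hd
      omega
    have h1 : par z = y := (closer hT hz).unique (hpar z hz) ⟨hyz.symm, hd⟩
    rw [← h1]
    exact (hπ _ z rfl).2 hz
  intro y z hyz
  have h1 := hT.dist_ne_of_adj x hyz
  rw [dist_comm, dist_comm (u := x)] at h1
  rcases lt_or_gt_of_ne h1 with h2 | h2
  · exact key y z hyz h2
  · exact (key z y hyz.symm h2).symm

/-- deck transformations -/
theorem deck (hT : T.IsTree) (hc : IsCover T G π) {x x' : V} (h : π x = π x') :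
    ∃ σ : V ≃ V, (∀ y z, T.Adj (σ y) (σ z) ↔ T.Adj y z) ∧ (∀ y, π (σ y) = π y) ∧ σ x = x' := by
  obtain ⟨σ, h1, h2, h3⟩ := hom_ex hT hc h
  obtain ⟨τ, g1, g2, g3⟩ := hom_ex hT hc h.symm
  have e1 : ∀ z, τ (σ z) = z := fun z =>
    hom_ext hT hc (σ := fun z => τ (σ z)) (τ := fun z => z) (fun y z hyz => g1 _ _ (h1 _ _ hyz))
      (fun _ _ h => h) (fun y => by rw [g2, h2]) (fun _ => rfl) (x := x) (by rw [h3, g3]) z
  have e2 : ∀ z, σ (τ z) = z := fun z =>
    hom_ext hT hc (σ := fun z => σ (τ z)) (τ := fun z => z) (fun y z hyz => h1 _ _ (g1 _ _ hyz))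
      (fun _ _ h => h) (fun y => by rw [h2, g2]) (fun _ => rfl) (x := x') (by rw [g3, h3]) z
  refine ⟨⟨σ, τ, e1, e2⟩, fun y z => ⟨fun h => ?_, h1 y z⟩, h2, h3⟩
  have h4 := g1 _ _ h
  change T.Adj (τ (σ y)) (τ (σ z)) at h4
  rwa [e1, e1] at h4

theorem dist_deck (σ : V ≃ V) (hσ : ∀ y z, T.Adj (σ y) (σ z) ↔ T.Adj y z) (hT : T.IsTree) (y z : V) :
    T.dist (σ y) (σ z) = T.dist y z := by
  have key : ∀ (τ : V ≃ V), (∀ y z, T.Adj (τ y) (τ z) ↔ T.Adj y z) → ∀ y z,
      T.dist (τ y) (τ z) ≤ T.dist y z := by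
    intro τ hτ y z
    obtain ⟨p, hp⟩ := hT.connected.exists_walk_length_eq_dist y z
    let f : T →g T := ⟨τ, fun h => (hτ _ _).2 h⟩
    have h1 : T.dist (f y) (f z) ≤ (p.map f).length := dist_le _
    rw [Walk.length_map, hp] at h1
    exact h1
  refine le_antisymm (key σ hσ y z) ?_
  have h1 := key σ.symm (fun y z => by rw [← hσ]; simp) (σ y) (σ z)
  simpa using h1

end Pool.Agent.T2h10.RG
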